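import Mathlib

set_option autoImplicit false

namespace Pool.Agent.H.MP_520f25_al

open scoped commutatorElement

@[ext] structure T where
  k : ZMod 28
  j : ZMod 6
  deriving DecidableEq, Fintype

def e (j : ZMod 6) : ZMod 28 := 23 ^ j.val

lemma e_add : ∀ i j, e (i + j) = e i * e j := by decide
lemma e_zero : e 0 = 1 := rfl

instance : Mul T := ⟨fun a b => ⟨a.k + e a.j * b.k, a.j + b.j⟩⟩
instance : One T := ⟨⟨0, 0⟩⟩
instance : Inv T := ⟨fun a => ⟨-(e (-a.j) * a.k), -a.j⟩⟩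

lemma mul_k (a b : T) : (a * b).k = a.k + e a.j * b.k := rfl
lemma mul_j (a b : T) : (a * b).j = a.j + b.j := rfl

instance : Group T := Group.ofLeftAxioms
  (fun a b c => by ext <;> simp only [mul_k, mul_j, e_add] <;> ring)
  (by decide +kernel) (by decide +kernel)

def lift {G : Type} [Group G] (A B : G) (hA : A ^ 28 = 1) (hB : B ^ 6 = 1)
    (h : B * A = A ^ 23 * B) : T →* G :=
  MonoidHom.mk' (fun t => A ^ t.k.val * B ^ t.j.val) fun a b => by
    have c : ∀ j m : ℕ, B ^ j * A ^ m = A ^ (23 ^ j * m) * B ^ j := fun j m => by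
      have : ∀ j : ℕ, SemiconjBy (B ^ j) A (A ^ 23 ^ j) := fun j => by
        induction j with
        | zero => simp
        | succ j ih =>
          rw [pow_succ', pow_succ', pow_mul]
          exact SemiconjBy.mul_left (SemiconjBy.pow_right h _) ih
      rw [pow_mul]
      exact (this j).pow_right m
    have k : (a * b).k = ((a.k.val + 23 ^ a.j.val * b.k.val : ℕ) : ZMod 28) := by simp [mul_k, e]
    rw [k, ZMod.val_natCast, ← pow_eq_pow_mod _ hA, mul_j, ZMod.val_add, ← pow_eq_pow_mod _ hB,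
      pow_add, pow_add, mul_assoc, mul_assoc, ← mul_assoc (B ^ _) (A ^ _), c, mul_assoc]

lemma lift_apply {G : Type} [Group G] (A B : G) (hA : A ^ 28 = 1) (hB : B ^ 6 = 1)
    (h : B * A = A ^ 23 * B) (t : T) : lift A B hA hB h t = A ^ t.k.val * B ^ t.j.val := rfl

def A : Equiv.Perm (Fin 7) := ⟨![1, 2, 3, 4, 5, 6, 0], ![6, 0, 1, 2, 3, 4, 5], by decide, by decide⟩
def B : Equiv.Perm (Fin 7) := ⟨![0, 2, 4, 6, 1, 3, 5], ![0, 4, 1, 5, 2, 6, 3], by decide, by decide⟩
def R : Equiv.Perm (Fin 7) := ⟨![0, 2, 3, 6, 5, 4, 1], ![0, 6, 1, 2, 5, 4, 3], by decide, by decide⟩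
def S : Equiv.Perm (Fin 7) := ⟨![0, 1, 6, 3, 5, 4, 2], ![0, 1, 6, 3, 5, 4, 2], by decide, by decide⟩

def hh : T →* Equiv.Perm (Fin 7) :=
  lift A B (by decide +kernel) (by decide +kernel) (by decide +kernel)
def kk : T →* Equiv.Perm (Fin 7) :=
  lift R S (by decide +kernel) (by decide +kernel) (by decide +kernel)

def ψ (t : T) : Equiv.Perm (Fin 7) := hh t * (kk t)⁻¹

def ψ' (t : T) : Equiv.Perm (Fin 7) :=
  A ^ (t.k.val % 7) * B ^ (t.j.val % 3) * (R ^ (t.k.val % 4) * S ^ (t.j.val % 2))⁻¹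

lemma ψ_eq (t : T) : ψ t = ψ' t := by
  rw [ψ', ← pow_eq_pow_mod _ (show A ^ 7 = 1 by decide +kernel),
    ← pow_eq_pow_mod _ (show B ^ 3 = 1 by decide +kernel),
    ← pow_eq_pow_mod _ (show R ^ 4 = 1 by decide +kernel),
    ← pow_eq_pow_mod _ (show S ^ 2 = 1 by decide +kernel)]
  rfl

lemma ψ_mul (t u : T) : ψ (t * u) = hh t * ψ u * (kk t)⁻¹ := by simp [ψ, mul_assoc]

lemma ψ_inj : Function.Injective ψ := fun t u h => by
  have a : ∀ t, ψ' t = 1 → t = 1 := by decide +kernel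
  refine (inv_mul_eq_one.1 (a _ ?_)).symm
  rw [← ψ_eq, ψ_mul, h, ← ψ_mul]
  simp [ψ]

def gens : Fin 4 → Equiv.Perm (Fin 7) := ![A, B, R, S]

def t1 : ℕ := 0x6560640e0f0d701b1d6d181a752376722073166b126714692927797a78285c06070b5d5e2c2e7e2f2b813b363a8c8d8b46999b4396984ba14c489e499441903d923fa7a54f504ea6328485893334020454050157110c106263611c6f71196c6e2177221e741f6a17661368157d7b2526247c085a5b5f090a80822a837f2d8f8a8e3839379a45479742449f4da09c4a9d40953c913e935351a3a4a2528630313587885658005955033486878535301c186e191b719d9e9c4c4d4b7829257b26286b1366681669368b388d3a8f0105575856000a5c5d5b0b069a96449799477374722223214ea7a351a4a641913c3e943f0c610e6310657f832d2e2c7e883233318984706c1a6d6f1d494a48a0a19f247d79277a7c176712146a158a378c398e3b5559030402545e0809075f5a46429843459b1f201e767775a2534fa55052953d90924093600d620f64112b2f8182802a7574737277763f3e3d3c4140090807060b0a7b7a79787d7c4544434247460f0e0d0c111081807f7e83824b4a49484d4c15141312171687868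584898851504f4e53521b1a19181d1c8d8c8b8a8f8e57565554595821201f1e23229392919095945d5c5b5a5f5e272625242928999897969b9a6362616065642d2c2b2a2f2e9f9e9d9ca1a0696867666b6a333231303534a5a4a3a2a7a66f6e6d6c7170393837363b3a0302010005042f2e2d2c2b2a292827262524232221201f1e1d1c1b1a191817161514131211100f0e0d0c0b0a09080706050403020100a7a6a5a4a3a2a1a09f9e9d9c9b9a999897969594939291908f8e8d8c8b8a898887868584838281807f7e7d7c7b7a797877767574737271706f6e6d6c6b6a696867666564636261605f5e5d5c5b5a595857565554535251504f4e4d4c4b4a494847464544434241403f3e3d3c3b3a39383736353433323130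
def t2 : ℕ := 0x6560640e0f0d701b1d6d181a752376722073166b126714692927797a78285c06070b5d5e2c2e7e2f2b813b363a8c8d8b46999b4396984ba14c489e499441903d923fa7a54f504ea6328485893334020454050157110c106263611c6f71196c6e2177221e741f6a17661368157d7b2526247c085a5b5f090a80822a837f2d8f8a8e3839379a45479742449f4da09c4a9d40953c913e935351a3a4a2528630313587885658005955036a66146769174344429a9b991e777321747611610c0e640f8431863388354f53a5a6a44e580203015954403c923d3f95191a1870716f9c4d499f4a4c8f378a8c3a8d5a075c095e0b25297b7c7a242e80817f2f2a16126813156b97989646474572231f752022650d60621063308532873489a3a7515250a204565755050094903e9193416d6e6c1c1d1b48a19d4b9ea03b8b36388e39065b085d0a5f797d27282678822c2d2b837e13121716151425242928272637363b3a393849484d4c4b4a5b5a5f5e5d5c6d6c71706f6e7f7e83828180919095949392a3a2a7a6a5a40d0c11100f0e1f1e2322212031303534333243424746454455545958575667666b6a696879787d7c7b7a8b8a8f8e8d8c9d9ca1a09f9e07060b0a090819181d1c1b1a2b2a2f2e2d2c3d3c41403f3e4f4e5352515061606564636273727776757485848988878697969b9a999801000504030277767574737271706f6e6d6c6b6a696867666564636261605f5e5d5c5b5a595857565554535251504f4e4d4c4b4a494847464544434241403f3e3d3c3b3a393837363534333231302f2e2d2c2b2a292827262524232221201f1e1d1c1b1a191817161514131211100f0e0d0c0b0a09080706050403020100a7a6a5a4a3a2a1a09f9e9d9c9b9a999897969594939291908f8e8d8c8b8a898887868584838281807f7e7d7c7b7a7978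

def wit (n : ℕ) (i : Fin 4) (t : T) : T :=
  ⟨((n >>> (8 * (i.val * 168 + t.k.val * 6 + t.j.val))) % 256 / 6 : ℕ),
    ((n >>> (8 * (i.val * 168 + t.k.val * 6 + t.j.val))) % 256 % 6 : ℕ)⟩

lemma cl1 : ∀ i t x, ψ' (wit t1 i t) x = gens i (ψ' t x) := by decide +kernel
lemma cl2 : ∀ i t x, ψ' (wit t2 i t) x = (gens i)⁻¹ (ψ' t x) := by decide +kernel

lemma cl (i t) : (∃ u, ψ' u = gens i * ψ' t) ∧ ∃ u, ψ' u = (gens i)⁻¹ * ψ' t :=
  ⟨⟨_, Equiv.ext (cl1 i t)⟩, _, Equiv.ext (cl2 i t)⟩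

def X : Subgroup (Equiv.Perm (Fin 7)) := Subgroup.closure (Set.range gens)

lemma ψ_mem (t : T) : ψ t ∈ X := by
  have m : ∀ i, gens i ∈ X := fun i => Subgroup.subset_closure ⟨i, rfl⟩
  exact mul_mem (mul_mem (pow_mem (m 0) _) (pow_mem (m 1) _))
    (inv_mem (mul_mem (pow_mem (m 2) _) (pow_mem (m 3) _)))

noncomputable def Ψ : T ≃ X := Equiv.ofBijective (fun t => ⟨ψ t, ψ_mem t⟩)
  ⟨fun _ _ h => ψ_inj (congrArg Subtype.val h), fun ⟨x, hx⟩ => by
    simp only [Subtype.mk.injEq, ψ_eq]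
    induction hx using Subgroup.closure_induction_left with
    | one => exact ⟨1, by decide +kernel⟩
    | mul_left g hg y _ ih => obtain ⟨t, rfl⟩ := ih; obtain ⟨i, rfl⟩ := hg; exact (cl i t).1
    | inv_mul_cancel g hg y _ ih => obtain ⟨t, rfl⟩ := ih; obtain ⟨i, rfl⟩ := hg; exact (cl i t).2⟩

lemma Ψ_coe (t : T) : (Ψ t).1 = ψ t := rfl

instance : Group.IsPerfect X := Subgroup.isPerfect_iff.2 (le_antisymm
  (Subgroup.commutator_le.2 fun _ a _ b =>
    mul_mem (mul_mem (mul_mem a b) (inv_mem a)) (inv_mem b)) ((Subgroup.closure_le _).2 (by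
  rintro _ ⟨i, rfl⟩
  have : ∀ i, ∃ t ∈ [(⟨0, 1⟩ : T), ⟨0, 2⟩, ⟨0, 3⟩], ∃ u ∈ [(⟨12, 0⟩ : T), ⟨21, 1⟩, ⟨5, 0⟩, ⟨0, 4⟩],
      ψ' t * ψ' u * (ψ' t)⁻¹ * (ψ' u)⁻¹ = gens i := by
    decide +kernel
  obtain ⟨t, -, u, -, e⟩ := this i
  rw [← e]
  simp only [← ψ_eq]
  exact Subgroup.commutator_mem_commutator (ψ_mem t) (ψ_mem u))))

end Pool.Agent.H.MP_520f25_al
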