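import Mathlib
import Pool.Agent.H.MP_520f25_al.T
import Pool.Agent.Lib.helper16.PSL

set_option autoImplicit false

namespace Pool.Agent.H.MP_520f25_al

open Matrix Matrix.SpecialLinearGroup

def q (G : Type) [Group G] : MulAut G →* MulAut (G ⧸ Subgroup.center G) :=
  MonoidHom.mk' (fun a => QuotientGroup.congr _ _ a
    (Subgroup.characteristic_iff_map_eq.1 inferInstance a)) fun _ _ =>
      MulEquiv.ext fun x => QuotientGroup.induction_on x fun _ => rfl

lemma q_mk {G : Type} [Group G] (a : MulAut G) (x : G) : q G a (x : G ⧸ _) = (a x : G) := rfl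

theorem brace {N : Type} [Group N] [Finite N] [IsSimpleGroup N] [Group.IsPerfect N]
    (φ : T →* MulAut N) (h : ∀ s t, (∀ x, s * φ t x = x * s) → s = 1 ∧ t = 1) :
    ∃ (B : Type) (_ : Finite B) (_ : AddGroup B) (_ : Group B),
      (∀ a b c : B, a * (b + c) = a * b - a + a * c) ∧ commutator (Multiplicative B) = ⊤ ∧
      (∃ S : Subgroup B, S.Normal ∧ IsSimpleGroup S ∧ ¬ IsMulCommutative S ∧
        Subgroup.centralizer (S : Set B) = ⊥) ∧ commutator B ≠ ⊤ := by
  let E : N ⋊[φ] T ≃ Additive (N × X) :=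
    (SemidirectProduct.equivProd.trans ((Equiv.refl N).prodCongr Ψ)).trans Additive.ofMul
  letI := E.addGroup
  let E' : N ⋊[φ] T ≃+ Additive (N × X) := E.addEquiv
  have c : Subgroup.centralizer ((SemidirectProduct.inl (φ := φ)).range : Set (N ⋊[φ] T)) = ⊥ :=
    eq_bot_iff.2 fun g hg => by
      obtain ⟨a, b⟩ := h g.left g.right fun x => by
        simpa using (congrArg SemidirectProduct.left (hg _ ⟨x, rfl⟩)).symm
      exact SemidirectProduct.ext a b
  have e := MonoidHom.ofInjective (SemidirectProduct.inl_injective (φ := φ))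
  refine ⟨N ⋊[φ] T, Finite.of_equiv _ SemidirectProduct.equivProd.symm, inferInstance,
    inferInstance, fun a b c => ?_, ?_, ⟨_, (SemidirectProduct.range_inl_eq_ker_rightHom (φ := φ)).symm ▸
      MonoidHom.normal_ker _, e.symm.isSimpleGroup, fun hc => ?_, c⟩, fun hc => ?_⟩
  · have k : ∀ a b : N ⋊[φ] T, (E' (a * b)).toMul = (a.left * φ a.right b.left, Ψ (a.right * b.right)) :=
      fun _ _ => rfl
    have k' : ∀ a : N ⋊[φ] T, (E' a).toMul = (a.left, Ψ a.right) := fun _ => rfl
    have s := congrArg Additive.toMul (map_add E' b c)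
    rw [toMul_add, k', k', k', Prod.mk_mul_mk, Prod.mk.injEq] at s
    apply E'.injective
    apply Additive.toMul.injective
    rw [map_add, map_sub, toMul_add, toMul_sub, k, k, k, k', s.1]
    refine Prod.ext (by simp [mul_assoc, div_eq_mul_inv]) (Subtype.ext ?_)
    have := congrArg Subtype.val s.2
    simp only [Prod.snd_mul, Prod.snd_div, Subgroup.coe_mul, Subgroup.coe_div, Ψ_coe, ψ_mul] at this ⊢
    rw [this]
    simp [ψ, mul_assoc, div_eq_mul_inv]
  · haveI : Group.IsPerfect (N × X) := ⟨by
      rw [commutator_def, ← Subgroup.top_prod_top, Subgroup.commutator_prod_prod, ← commutator_def,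
        ← commutator_def, Group.IsPerfect.commutator_eq_top, Group.IsPerfect.commutator_eq_top]⟩
    let e' := (AddEquiv.toMultiplicativeLeft E').symm
    exact (Group.IsPerfect.ofSurjective (f := e'.toMonoidHom) e'.surjective).1
  · haveI := Group.IsPerfect.ofSurjective (f := e.toMonoidHom) e.surjective
    haveI := e.symm.isSimpleGroup
    exact Group.IsPerfect.not_isMulCommutative _ hc
  · let f : T →* Multiplicative (ZMod 6) := MonoidHom.mk' (fun t => .ofAdd t.j) fun _ _ => rfl
    have : SemidirectProduct.inr ⟨0, 1⟩ ∈ (f.comp (SemidirectProduct.rightHom (φ := φ))).ker :=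
      Abelianization.commutator_subset_ker _ (hc ▸ trivial)
    exact absurd (show (1 : ZMod 6) = 0 from this) (by decide)

variable {ι F : Type} [Field F] [DecidableEq ι] [Fintype ι] (o : ι)

def D : F →* Matrix ι ι F :=
  (diagonalRingHom ι F).toMonoidHom.comp (MonoidHom.mulSingle (fun _ => F) o)

lemma D_eq (u : F) : D o u = diagonal (Pi.mulSingle o u) := rfl

lemma D_det (u : F) : (D o u).det = u := by simp [D_eq]

def cj : Fˣ →* MulAut (SpecialLinearGroup ι F) := MonoidHom.mk' (fun u =>
  { toFun := fun g => ⟨D o u.1 * g.1 * D o u⁻¹.1, by simp [D_det]⟩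
    invFun := fun g => ⟨D o u⁻¹.1 * g.1 * D o u.1, by simp [D_det]⟩
    left_inv := fun g => Subtype.ext (by
      simp only [← mul_assoc, ← map_mul]
      simp [mul_assoc, ← map_mul])
    right_inv := fun g => Subtype.ext (by
      simp only [← mul_assoc, ← map_mul]
      simp [mul_assoc, ← map_mul])
    map_mul' := fun g h => Subtype.ext (by
      simp only [coe_mul, mul_assoc]
      rw [← mul_assoc (D o u⁻¹.1), ← map_mul]
      simp) }) fun u v => MulEquiv.ext fun g => Subtype.ext (by
        show D o (u * v).1 * g.1 * D o (u * v)⁻¹.1 = D o u.1 * (D o v.1 * g.1 * D o v⁻¹.1) * D o u⁻¹.1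
        simp only [_root_.mul_inv_rev, Units.val_mul, map_mul, mul_assoc])

lemma cj_coe (u : Fˣ) (g : SpecialLinearGroup ι F) : (cj o u g).1 = D o u.1 * g.1 * D o u⁻¹.1 := rfl

def fr : RingAut F →* MulAut (SpecialLinearGroup ι F) := MonoidHom.mk' (fun σ =>
  { toFun := map σ.toRingHom
    invFun := map σ.symm.toRingHom
    left_inv := fun g => by ext; simp
    right_inv := fun g => by ext; simp
    map_mul' := map_mul _ }) fun _ _ => rfl

lemma fr_coe (σ : RingAut F) (g : SpecialLinearGroup ι F) : (fr σ g).1 = g.1.map σ := rfl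

lemma D_map (σ : RingAut F) (u : F) : (D o u).map σ = D o (σ u) := by
  rw [D_eq, D_eq, diagonal_map (map_zero σ)]
  congr 1
  funext i
  by_cases h : i = o <;> simp [Pi.mulSingle_apply, h]

theorem final : ∃ (B : Type) (_ : Finite B) (_ : AddGroup B) (_ : Group B),
      (∀ a b c : B, a * (b + c) = a * b - a + a * c) ∧ commutator (Multiplicative B) = ⊤ ∧
      (∃ S : Subgroup B, S.Normal ∧ IsSimpleGroup S ∧ ¬ IsMulCommutative S ∧
        Subgroup.centralizer (S : Set B) = ⊥) ∧ commutator B ≠ ⊤ := by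
  haveI : Fact (Nat.Prime 23) := ⟨by norm_num⟩
  obtain ⟨F, _, _, _, hF⟩ : ∃ (F : Type) (_ : Field F) (_ : Fintype F) (_ : CharP F 23),
      Fintype.card F = 23 ^ 6 := ⟨GaloisField 23 6, inferInstance, Fintype.ofFinite _,
        inferInstance, by rw [← @Nat.card_eq_fintype_card _ (_), GaloisField.card _ _ (by norm_num)]⟩
  obtain ⟨ι, _, _, hι⟩ : ∃ (ι : Type) (_ : DecidableEq ι) (_ : Fintype ι), Fintype.card ι = 112 :=
    ⟨Fin 112, inferInstance, inferInstance, by simp⟩
  haveI : Nontrivial ι := Fintype.one_lt_card_iff_nontrivial.1 (by omega)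
  obtain ⟨o, o', oo⟩ := exists_pair_ne ι
  have hu : Nat.card Fˣ = 112 * 1321749 := by
    rw [Nat.card_units, Nat.card_eq_fintype_card, hF]
    norm_num
  obtain ⟨ζ, hζ⟩ : ∃ ζ : Fˣ, orderOf ζ = 28 := by
    obtain ⟨g, hg⟩ := IsCyclic.exists_ofOrder_eq_natCard (α := Fˣ)
    exact ⟨g ^ (4 * 1321749), by rw [orderOf_pow' _ (by norm_num), hg, hu]; norm_num⟩
  let σ : RingAut F := frobeniusEquiv F 23
  have hσ : ∀ (j : ℕ) x, (σ ^ j) x = x ^ 23 ^ j := fun j x => by
    induction j with
    | zero => simp
    | succ j ih => rw [pow_succ', RingAut.mul_apply, ih, pow_succ, pow_mul]; rfl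
  haveI := Pool.Agent.Lib.helper16.PSL.SL_perfect (ι := ι) (F := F) (by omega)
  haveI := Pool.Agent.Lib.helper16.PSL.PSL_simple (ι := ι) (F := F) (by omega)
  refine brace ((q (SpecialLinearGroup ι F)).comp (lift (cj o ζ) (fr σ) ?_ ?_ ?_)) fun s t h => ?_
  · rw [← map_pow, ← hζ, pow_orderOf_eq_one, map_one]
  · rw [← map_pow, ← map_one fr]
    congr 1
    ext x
    rw [hσ, ← hF, FiniteField.pow_card]
    rfl
  · rw [← map_pow]
    refine MulEquiv.ext fun g => Subtype.ext ?_
    simp only [MulAut.mul_apply, cj_coe, fr_coe, Matrix.map_mul, D_map]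
    simp [σ, frobenius_def]
  obtain ⟨m, rfl⟩ := QuotientGroup.mk_surjective s
  set u := ζ ^ t.k.val with hu'
  have key : ∀ {a b : ι} (ab : a ≠ b) (r : F),
      m.1 * D o u.1 * single a b (r ^ 23 ^ t.j.val) = single a b r * (m.1 * D o u.1) := fun {a b} ab r => by
    have := h (transvection ab r : SpecialLinearGroup ι F)
    rw [MonoidHom.comp_apply, q_mk, ← QuotientGroup.mk_mul, ← QuotientGroup.mk_mul, eq_comm,
      QuotientGroup.eq, mem_center_iff, lift_apply, ← map_pow, ← map_pow] at this
    obtain ⟨c, -, hc⟩ := this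
    have e1 : (transvection ab r * m).1 * scalar ι c = (m * cj o u (fr (σ ^ t.j.val)
        (transvection ab r))).1 := by
      rw [hc, ← coe_mul, mul_inv_cancel_left]
      rfl
    have e2 : (fr (σ ^ t.j.val) (transvection ab r)).1 = 1 + single a b (r ^ 23 ^ t.j.val) := by
      rw [fr_coe, transvection_coe, Matrix.map_add _ (map_add _), Matrix.map_one _ (map_zero _)
        (map_one _), map_single, hσ]
    rw [coe_mul, coe_mul, cj_coe, e2, transvection_coe] at e1
    have e3 : c • ((1 + single a b r) * (m.1 * D o u.1)) =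
        m.1 * D o u.1 * (1 + single a b (r ^ 23 ^ t.j.val)) := by
      have := congrArg (· * D o u.1) e1
      simp only [mul_assoc, ← map_mul, Units.inv_mul, map_one, mul_one] at this
      simpa [mul_assoc, scalar_apply, ← smul_eq_diagonal_mul] using this
    have un : IsUnit (m.1 * D o u.1).det := by simp [D_det]
    have e4 := congrArg (fun M => trace (M * (m.1 * D o u.1)⁻¹)) e3
    simp only [smul_mul_assoc, mul_assoc _ (m.1 * D o u.1), mul_nonsing_inv _ un, mul_one] at e4
    rw [trace_mul_comm (_ * _ * _), ← mul_assoc, nonsing_inv_mul _ un] at e4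
    simp only [one_mul, trace_smul, trace_add, trace_one, trace_single_eq_of_ne _ _ _ ab, hι,
      add_zero, smul_eq_mul] at e4
    have : c = 1 := (mul_eq_right₀ (by
      rw [Ne, CharP.cast_eq_zero_iff F 23]; norm_num)).1 e4
    simpa [this, add_mul, mul_add] using e3.symm
  obtain ⟨c, hc⟩ := mem_range_scalar_of_commute_single (M := m.1 * D o u.1)
    fun a b ab => by simpa [Commute, SemiconjBy] using (key ab 1).symm
  have d : c ^ 112 = u := by simpa [D_det, hι] using congrArg det hc
  have c0 : c ≠ 0 := fun e => u.ne_zero (by simp [← d, e])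
  have hk : t.k = 0 := by
    have : u ^ 1321749 = 1 := by
      rw [show u = Units.mk0 c c0 ^ 112 from Units.ext d.symm, ← pow_mul, ← hu, pow_card_eq_one']
    rw [hu', ← pow_mul, ← orderOf_dvd_iff_pow_eq_one, hζ] at this
    have := Nat.Coprime.dvd_of_dvd_mul_right (by norm_num) this
    rw [← ZMod.natCast_eq_zero_iff] at this
    simpa using this
  have hj : t.j = 0 := by
    have := congrFun (congrFun (key oo ζ) o) o'
    rw [← hc] at this
    simp only [scalar_apply, diagonal_mul, mul_diagonal, single_apply_same] at this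
    rw [mul_comm, mul_left_inj' c0] at this
    have : ζ ^ 23 ^ t.j.val = ζ ^ 1 := Units.ext (by simpa using this)
    rw [pow_eq_pow_iff_modEq, hζ] at this
    revert this
    generalize t.j = j
    decide +revert
  refine ⟨(QuotientGroup.eq_one_iff _).2 (mem_center_iff.2 ⟨c, ?_, ?_⟩), T.ext hk hj⟩
  · simp [hι, d, hu', hk]
  · simp [hc, hu', hk]

end Pool.Agent.H.MP_520f25_al
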